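import Pool.Agent.H65.CRG.TN
import Pool.Agent.H28.PZ.All

/-!
Row VG of the project CRG: the weights of the approximate functional equation (after H26/CRZ/VG).
-/

set_option autoImplicit false

open Complex MeasureTheory

namespace Pool.Agent.H36.CRG

open Pool.Agent.H65.CRZ Pool.Agent.H65.CRG

/-- the integrand -/
noncomputable def HH (n : ℕ) (s₁ s₂ : ℂ) (x : ℝ) (w : ℂ) : ℂ :=
  Gq s₁ s₂ w ^ n * (cexp (2 * w ^ 2) / w) * (x : ℂ) ^ (-w)

private theorem norm_exp_sq (w : ℂ) :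
    ‖cexp (2 * w ^ 2)‖ = Real.exp (2 * w.re ^ 2 - 2 * w.im ^ 2) := by
  rw [Complex.norm_exp]
  congr 1
  simp [pow_two, Complex.mul_re, Complex.mul_im]
  ring

private theorem norm_Gq_le (b C B : ℝ)
    (hG : ∀ s w : ℂ, 1 / 4 ≤ s.re → s.re ≤ 3 / 4 → -(1 / 8) ≤ w.re → w.re ≤ b →
      ‖Gamma (s + w)‖ ≤ C * (1 + |s.im|) ^ B * Real.exp (2 * |w.im|) * ‖Gamma s‖)
    (s₁ s₂ w : ℂ) (h1 : 1 / 4 ≤ s₁.re) (h2 : s₁.re ≤ 3 / 4) (h3 : 1 / 4 ≤ s₂.re)
    (h4 : s₂.re ≤ 3 / 4) (hw0 : 0 < w.re) (hwb : w.re ≤ b) (hC : 0 < C) :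
    ‖Gq s₁ s₂ w‖ ≤ C ^ 2 * ((1 + |s₁.im|) ^ B * (1 + |s₂.im|) ^ B) *
      Real.exp (4 * |w.im|) := by
  have n1 : 0 < ‖Gamma s₁‖ := norm_pos_iff.2 (Gamma_ne_zero_of_re_pos (by linarith))
  have n2 : 0 < ‖Gamma s₂‖ := norm_pos_iff.2 (Gamma_ne_zero_of_re_pos (by linarith))
  have g1 := hG s₁ w h1 h2 (by linarith) hwb
  have g2 := hG s₂ w h3 h4 (by linarith) hwb
  unfold Gq
  rw [norm_div, norm_mul, norm_mul, div_le_iff₀ (mul_pos n1 n2)]
  have e : Real.exp (4 * |w.im|) = Real.exp (2 * |w.im|) * Real.exp (2 * |w.im|) := by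
    rw [← Real.exp_add]
    congr 1
    ring
  rw [e]
  calc ‖Gamma (s₁ + w)‖ * ‖Gamma (s₂ + w)‖ ≤
      (C * (1 + |s₁.im|) ^ B * Real.exp (2 * |w.im|) * ‖Gamma s₁‖) *
      (C * (1 + |s₂.im|) ^ B * Real.exp (2 * |w.im|) * ‖Gamma s₂‖) :=
        mul_le_mul g1 g2 (norm_nonneg _) (le_trans (norm_nonneg _) g1)
    _ = _ := by ring

private theorem norm_HH_le (n : ℕ) (b C B : ℝ)
    (hG : ∀ s w : ℂ, 1 / 4 ≤ s.re → s.re ≤ 3 / 4 → -(1 / 8) ≤ w.re → w.re ≤ b →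
      ‖Gamma (s + w)‖ ≤ C * (1 + |s.im|) ^ B * Real.exp (2 * |w.im|) * ‖Gamma s‖)
    (s₁ s₂ w : ℂ) (h1 : 1 / 4 ≤ s₁.re) (h2 : s₁.re ≤ 3 / 4) (h3 : 1 / 4 ≤ s₂.re)
    (h4 : s₂.re ≤ 3 / 4) (hw0 : 0 < w.re) (hwb : w.re ≤ b) (hC : 0 < C) (x : ℝ) (hx : 0 < x) :
    ‖HH n s₁ s₂ x w‖ ≤ (C ^ 2 * ((1 + |s₁.im|) ^ B * (1 + |s₂.im|) ^ B)) ^ n *
      (Real.exp (2 * w.re ^ 2) / w.re) * x ^ (-w.re) *
      Real.exp (4 * n * |w.im| - 2 * w.im ^ 2) := by
  have g0 := norm_Gq_le b C B hG s₁ s₂ w h1 h2 h3 h4 hw0 hwb hC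
  have g : ‖Gq s₁ s₂ w ^ n‖ ≤ (C ^ 2 * ((1 + |s₁.im|) ^ B * (1 + |s₂.im|) ^ B)) ^ n *
      Real.exp (4 * n * |w.im|) := by
    rw [norm_pow]
    refine (pow_le_pow_left₀ (norm_nonneg _) g0 n).trans (le_of_eq ?_)
    rw [mul_pow, ← Real.exp_nat_mul]
    congr 2
    ring
  unfold HH
  rw [norm_mul, norm_mul, norm_div, norm_exp_sq, norm_cpow_eq_rpow_re_of_pos hx, Complex.neg_re]
  have hwn : w.re ≤ ‖w‖ := (le_abs_self _).trans (Complex.abs_re_le_norm w)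
  have e1 : Real.exp (2 * w.re ^ 2 - 2 * w.im ^ 2) / ‖w‖ ≤
      Real.exp (2 * w.re ^ 2 - 2 * w.im ^ 2) / w.re :=
    div_le_div_of_nonneg_left (Real.exp_pos _).le hw0 hwn
  have hxp : 0 ≤ x ^ (-w.re) := (Real.rpow_pos_of_pos hx _).le
  have hP : 0 ≤ (C ^ 2 * ((1 + |s₁.im|) ^ B * (1 + |s₂.im|) ^ B)) ^ n := by positivity
  calc ‖Gq s₁ s₂ w ^ n‖ * (Real.exp (2 * w.re ^ 2 - 2 * w.im ^ 2) / ‖w‖) * x ^ (-w.re) ≤
      ((C ^ 2 * ((1 + |s₁.im|) ^ B * (1 + |s₂.im|) ^ B)) ^ n * Real.exp (4 * n * |w.im|)) *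
        (Real.exp (2 * w.re ^ 2 - 2 * w.im ^ 2) / w.re) * x ^ (-w.re) := by
        apply mul_le_mul_of_nonneg_right _ hxp
        apply mul_le_mul g e1 _ (by positivity)
        positivity
    _ = _ := by
        have e2 : Real.exp (2 * w.re ^ 2 - 2 * w.im ^ 2) =
            Real.exp (2 * w.re ^ 2) * Real.exp (-(2 * w.im ^ 2)) := by
          rw [← Real.exp_add]
          congr 1
        have e3 : Real.exp (4 * n * |w.im| - 2 * w.im ^ 2) =
            Real.exp (4 * n * |w.im|) * Real.exp (-(2 * w.im ^ 2)) := by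
          rw [← Real.exp_add]
          congr 1
        rw [e2, e3]
        ring

private theorem diff_HH (n : ℕ) (s₁ s₂ w : ℂ) (h1 : 1 / 4 ≤ s₁.re) (h3 : 1 / 4 ≤ s₂.re)
    (hw0 : 0 < w.re) (x : ℝ) (hx : 0 < x) : DifferentiableAt ℂ (HH n s₁ s₂ x) w := by
  have hw : w ≠ 0 := by
    intro h
    rw [h, Complex.zero_re] at hw0
    exact lt_irrefl _ hw0
  have hg : ∀ s : ℂ, 1 / 4 ≤ s.re → DifferentiableAt ℂ (fun w : ℂ => Gamma (s + w)) w := by
    intro s hs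
    have h : DifferentiableAt ℂ Gamma (s + w) := by
      apply differentiableAt_Gamma
      intro m hm
      have h5 := congrArg Complex.re hm
      simp only [Complex.add_re, Complex.neg_re, Complex.natCast_re] at h5
      have h6 : (0 : ℝ) ≤ m := Nat.cast_nonneg m
      linarith
    exact h.comp w (differentiableAt_id.const_add s)
  have hx' : (x : ℂ) ≠ 0 := by exact_mod_cast hx.ne'
  unfold HH Gq
  apply DifferentiableAt.mul
  · apply DifferentiableAt.mul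
    · exact (((hg s₁ h1).mul (hg s₂ h3)).div_const _).pow n
    · apply DifferentiableAt.div _ differentiableAt_id hw
      exact ((differentiableAt_id.pow 2).const_mul 2).cexp
  · exact (differentiableAt_id.neg).const_cpow (Or.inl hx')

private theorem exp_bd1 (n : ℕ) (t : ℝ) : Real.exp (4 * n * |t| - 2 * t ^ 2) ≤
    Real.exp (4 * n ^ 2) * Real.exp (-1 * t ^ 2) := by
  rw [← Real.exp_add]
  apply Real.exp_le_exp.2
  have h : |t| ^ 2 = t ^ 2 := sq_abs t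
  nlinarith [sq_nonneg (|t| - 2 * n)]

private theorem exp_bd2 (n : ℕ) (p t : ℝ) (hp : 0 ≤ p) : (p + |t|) * Real.exp (4 * n * |t| - 2 * t ^ 2) ≤
    (p + 1) * Real.exp ((2 * n + 1) ^ 2) * Real.exp (-|t|) := by
  have h1 : p + |t| ≤ (p + 1) * Real.exp |t| := by
    have e1 := Real.add_one_le_exp |t|
    have e2 : 0 ≤ |t| := abs_nonneg t
    have e3 : (p + 1) * (|t| + 1) ≤ (p + 1) * Real.exp |t| :=
      mul_le_mul_of_nonneg_left e1 (by linarith)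
    nlinarith
  calc (p + |t|) * Real.exp (4 * n * |t| - 2 * t ^ 2) ≤
      ((p + 1) * Real.exp |t|) * Real.exp (4 * n * |t| - 2 * t ^ 2) :=
        mul_le_mul_of_nonneg_right h1 (Real.exp_pos _).le
    _ = (p + 1) * Real.exp (|t| + (4 * n * |t| - 2 * t ^ 2)) := by rw [Real.exp_add]; ring
    _ ≤ (p + 1) * Real.exp ((2 * n + 1) ^ 2 + -|t|) := by
        apply mul_le_mul_of_nonneg_left _ (by linarith)
        apply Real.exp_le_exp.2
        have h : |t| ^ 2 = t ^ 2 := sq_abs t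
        nlinarith [sq_nonneg (2 * |t| - (2 * n + 1)), sq_nonneg ((2 * n + 1 : ℝ))]
    _ = _ := by rw [Real.exp_add]; ring

private theorem line_int (n : ℕ) (a b C B : ℝ) (ha : 0 < a) (hab : a ≤ b)
    (hG : ∀ s w : ℂ, 1 / 4 ≤ s.re → s.re ≤ 3 / 4 → -(1 / 8) ≤ w.re → w.re ≤ b →
      ‖Gamma (s + w)‖ ≤ C * (1 + |s.im|) ^ B * Real.exp (2 * |w.im|) * ‖Gamma s‖)
    (s₁ s₂ : ℂ) (h1 : 1 / 4 ≤ s₁.re) (h2 : s₁.re ≤ 3 / 4) (h3 : 1 / 4 ≤ s₂.re)
    (h4 : s₂.re ≤ 3 / 4) (hC : 0 < C) (x : ℝ) (hx : 0 < x) :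
    Integrable (fun t : ℝ => HH n s₁ s₂ x (a + t * I)) ∧
    ‖∫ t : ℝ, HH n s₁ s₂ x (a + t * I)‖ ≤ (C ^ 2 * ((1 + |s₁.im|) ^ B * (1 + |s₂.im|) ^ B)) ^ n *
      (Real.exp (2 * a ^ 2) / a) * x ^ (-a) * (Real.exp (4 * n ^ 2) * Real.sqrt (Real.pi / 1)) := by
  have hre : ∀ t : ℝ, ((a : ℂ) + t * I).re = a := by intro t; simp
  have him : ∀ t : ℝ, ((a : ℂ) + t * I).im = t := by intro t; simp
  have hb : ∀ t : ℝ, ‖HH n s₁ s₂ x (a + t * I)‖ ≤
      ((C ^ 2 * ((1 + |s₁.im|) ^ B * (1 + |s₂.im|) ^ B)) ^ n *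
      (Real.exp (2 * a ^ 2) / a) * x ^ (-a) * Real.exp (4 * n ^ 2)) * Real.exp (-1 * t ^ 2) := by
    intro t
    have h := norm_HH_le n b C B hG s₁ s₂ (a + t * I) h1 h2 h3 h4 (by rw [hre]; exact ha)
      (by rw [hre]; exact hab) hC x hx
    rw [hre, him] at h
    refine h.trans ?_
    have hxp : 0 ≤ x ^ (-a) := (Real.rpow_pos_of_pos hx _).le
    rw [mul_assoc _ (Real.exp (4 * n ^ 2))]
    apply mul_le_mul_of_nonneg_left (exp_bd1 n t)
    positivity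
  have hgi : Integrable (fun t : ℝ => ((C ^ 2 * ((1 + |s₁.im|) ^ B * (1 + |s₂.im|) ^ B)) ^ n *
      (Real.exp (2 * a ^ 2) / a) * x ^ (-a) * Real.exp (4 * n ^ 2)) * Real.exp (-1 * t ^ 2)) :=
    (integrable_exp_neg_mul_sq one_pos).const_mul _
  have hcont : Continuous (fun t : ℝ => HH n s₁ s₂ x (a + t * I)) := by
    rw [continuous_iff_continuousAt]
    intro t
    have hd := (diff_HH n s₁ s₂ (a + t * I) h1 h3 (by rw [hre]; exact ha) x hx).continuousAt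
    have hl : ContinuousAt (fun t : ℝ => (a : ℂ) + t * I) t := by fun_prop
    exact ContinuousAt.comp (f := fun t : ℝ => (a : ℂ) + t * I) hd hl
  refine ⟨hgi.mono' hcont.aestronglyMeasurable (Filter.Eventually.of_forall hb), ?_⟩
  have h5 := MeasureTheory.norm_integral_le_of_norm_le hgi (Filter.Eventually.of_forall hb)
  rw [MeasureTheory.integral_const_mul, integral_gaussian 1] at h5
  rw [← mul_assoc]
  exact h5

private theorem shift_aux (n : ℕ) (lo hi b C B : ℝ) (hlo : 0 < lo) (hlh : lo < hi) (hhb : hi ≤ b)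
    (hG : ∀ s w : ℂ, 1 / 4 ≤ s.re → s.re ≤ 3 / 4 → -(1 / 8) ≤ w.re → w.re ≤ b →
      ‖Gamma (s + w)‖ ≤ C * (1 + |s.im|) ^ B * Real.exp (2 * |w.im|) * ‖Gamma s‖)
    (s₁ s₂ : ℂ) (h1 : 1 / 4 ≤ s₁.re) (h2 : s₁.re ≤ 3 / 4) (h3 : 1 / 4 ≤ s₂.re)
    (h4 : s₂.re ≤ 3 / 4) (hC : 0 < C) (x : ℝ) (hx : 0 < x) :
    ((1 / (2 * Real.pi) : ℝ) : ℂ) * ∫ t : ℝ, HH n s₁ s₂ x (hi + t * I) =
      ((1 / (2 * Real.pi) : ℝ) : ℂ) * ∫ t : ℝ, HH n s₁ s₂ x (lo + t * I) := by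
  have hpr : (((lo + hi) / 2 : ℝ) : ℂ).re = (lo + hi) / 2 := Complex.ofReal_re _
  have hsh := Pool.Agent.H28.PZ.All.sh
    (fun w : ℂ => (w - (((lo + hi) / 2 : ℝ) : ℂ)) * HH n s₁ s₂ x w) lo hi
    ((C ^ 2 * ((1 + |s₁.im|) ^ B * (1 + |s₂.im|) ^ B)) ^ n * (Real.exp (2 * hi ^ 2) / lo) *
      (x ^ (-lo) + x ^ (-hi)) * ((2 * hi + 1) * Real.exp ((2 * n + 1) ^ 2))) (((lo + hi) / 2 : ℝ) : ℂ)
    (by rw [hpr]; linarith) (by rw [hpr]; linarith)
    (by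
      intro s hs1 hs2
      exact (differentiableAt_id.sub_const _).mul (diff_HH n s₁ s₂ s h1 h3 (by linarith) x hx))
    (by
      intro s hs1 hs2
      rw [norm_mul]
      have e1 := norm_HH_le n b C B hG s₁ s₂ s h1 h2 h3 h4 (by linarith) (by linarith) hC x hx
      have e2 : ‖s - (((lo + hi) / 2 : ℝ) : ℂ)‖ ≤ 2 * hi + |s.im| := by
        refine (Complex.norm_le_abs_re_add_abs_im _).trans ?_
        rw [Complex.sub_re, Complex.sub_im, hpr, Complex.ofReal_im, sub_zero]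
        have : |s.re - (lo + hi) / 2| ≤ 2 * hi := by
          rw [abs_le]
          constructor <;> linarith
        linarith
      have hxs : x ^ (-s.re) ≤ x ^ (-lo) + x ^ (-hi) := by
        have p1 : 0 < x ^ (-lo) := Real.rpow_pos_of_pos hx _
        have p2 : 0 < x ^ (-hi) := Real.rpow_pos_of_pos hx _
        rcases le_total 1 x with hx1 | hx1
        · have := Real.rpow_le_rpow_of_exponent_le hx1 (show -s.re ≤ -lo by linarith)
          linarith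
        · have := Real.rpow_le_rpow_of_exponent_ge hx hx1 (show -hi ≤ -s.re by linarith)
          linarith
      have hes : Real.exp (2 * s.re ^ 2) / s.re ≤ Real.exp (2 * hi ^ 2) / lo := by
        apply div_le_div₀ (Real.exp_pos _).le _ hlo hs1
        apply Real.exp_le_exp.2
        have : s.re ^ 2 ≤ hi ^ 2 := pow_le_pow_left₀ (by linarith) hs2 2
        linarith
      have hP : 0 ≤ (C ^ 2 * ((1 + |s₁.im|) ^ B * (1 + |s₂.im|) ^ B)) ^ n := by positivity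
      have hspos : 0 < s.re := by linarith
      have hxp : 0 ≤ x ^ (-s.re) := (Real.rpow_pos_of_pos hx _).le
      have hxp2 : 0 ≤ x ^ (-lo) + x ^ (-hi) := hxp.trans hxs
      have e3 : ‖HH n s₁ s₂ x s‖ ≤ (C ^ 2 * ((1 + |s₁.im|) ^ B * (1 + |s₂.im|) ^ B)) ^ n *
          (Real.exp (2 * hi ^ 2) / lo) * (x ^ (-lo) + x ^ (-hi)) *
          Real.exp (4 * n * |s.im| - 2 * s.im ^ 2) := by
        refine e1.trans ?_
        apply mul_le_mul_of_nonneg_right _ (Real.exp_pos _).le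
        apply mul_le_mul _ hxs hxp (by positivity)
        exact mul_le_mul_of_nonneg_left hes hP
      have e4 := exp_bd2 n (2 * hi) s.im (by linarith)
      calc ‖s - (((lo + hi) / 2 : ℝ) : ℂ)‖ * ‖HH n s₁ s₂ x s‖ ≤
          (2 * hi + |s.im|) * ((C ^ 2 * ((1 + |s₁.im|) ^ B * (1 + |s₂.im|) ^ B)) ^ n *
          (Real.exp (2 * hi ^ 2) / lo) * (x ^ (-lo) + x ^ (-hi)) *
          Real.exp (4 * n * |s.im| - 2 * s.im ^ 2)) := by
            apply mul_le_mul e2 e3 (norm_nonneg _)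
            have := abs_nonneg s.im
            linarith
        _ = (C ^ 2 * ((1 + |s₁.im|) ^ B * (1 + |s₂.im|) ^ B)) ^ n *
          (Real.exp (2 * hi ^ 2) / lo) * (x ^ (-lo) + x ^ (-hi)) *
          ((2 * hi + |s.im|) * Real.exp (4 * n * |s.im| - 2 * s.im ^ 2)) := by ring
        _ ≤ (C ^ 2 * ((1 + |s₁.im|) ^ B * (1 + |s₂.im|) ^ B)) ^ n *
          (Real.exp (2 * hi ^ 2) / lo) * (x ^ (-lo) + x ^ (-hi)) *
          ((2 * hi + 1) * Real.exp ((2 * n + 1) ^ 2) * Real.exp (-|s.im|)) := by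
            apply mul_le_mul_of_nonneg_left e4
            positivity
        _ = _ := by ring)
  have hL : ∀ c : ℝ, c ≠ (lo + hi) / 2 → (fun t : ℝ =>
      (((c : ℂ) + t * I) - (((lo + hi) / 2 : ℝ) : ℂ)) * HH n s₁ s₂ x ((c : ℂ) + t * I) /
        ((c : ℂ) + t * I - (((lo + hi) / 2 : ℝ) : ℂ))) =
      fun t : ℝ => HH n s₁ s₂ x ((c : ℂ) + t * I) := by
    intro c hc
    funext t
    have hne : ((c : ℂ) + t * I - (((lo + hi) / 2 : ℝ) : ℂ)) ≠ 0 := by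
      intro h
      have := congrArg Complex.re h
      simp only [Complex.sub_re, Complex.add_re, Complex.ofReal_re, Complex.mul_re,
        Complex.I_re, mul_zero, Complex.ofReal_im, Complex.I_im, mul_one, sub_self, add_zero,
        Complex.zero_re] at this
      exact hc (by linarith)
    rw [mul_comm, mul_div_assoc, div_self hne, mul_one]
  simp only [hL hi (by intro h; linarith), hL lo (by intro h; linarith), sub_self, zero_mul] at hsh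
  exact sub_eq_zero.1 hsh

theorem pf_VG (h1 : Pool.Agent.H65.CRZ.T_G1) : Pool.Agent.H65.CRG.T_VG := by
  intro n a ha
  obtain ⟨C, B, hC, hB, hG⟩ := h1 (max a 2)
  refine ⟨1 / (2 * Real.pi) * ((C ^ 2) ^ n * (Real.exp (2 * a ^ 2) / a) *
    (Real.exp (4 * n ^ 2) * Real.sqrt (Real.pi / 1))), 2 * B * n, by positivity, by positivity, ?_⟩
  intro s₁ s₂ g1 g2 g3 g4 x hx
  have hab : a ≤ max a 2 := le_max_left _ _
  have h2b : (2 : ℝ) ≤ max a 2 := le_max_right _ _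
  obtain ⟨hint, hnorm⟩ := line_int n a (max a 2) C B ha hab hG s₁ s₂ g1 g2 g3 g4 hC x hx
  have hVg : Vn n s₁ s₂ x = ((1 / (2 * Real.pi) : ℝ) : ℂ) *
      ∫ t : ℝ, HH n s₁ s₂ x ((2 : ℝ) + t * I) := by
    unfold Vn HH
    simp only [Complex.ofReal_ofNat]
  have heq : Vn n s₁ s₂ x = ((1 / (2 * Real.pi) : ℝ) : ℂ) *
      ∫ t : ℝ, HH n s₁ s₂ x (a + t * I) := by
    rw [hVg]
    rcases lt_trichotomy a 2 with h | h | h
    · exact shift_aux n a 2 (max a 2) C B ha h h2b hG s₁ s₂ g1 g2 g3 g4 hC x hx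
    · rw [h]
    · exact (shift_aux n 2 a (max a 2) C B two_pos h hab hG s₁ s₂ g1 g2 g3 g4 hC x hx).symm
  refine ⟨hint, heq, ?_⟩
  rw [heq, norm_mul, Complex.norm_real, Real.norm_eq_abs,
    abs_of_pos (by positivity : (0 : ℝ) < 1 / (2 * Real.pi))]
  have hs0 : (1 + |s₁.im|) ^ B * (1 + |s₂.im|) ^ B ≤ (1 + |s₁.im| + |s₂.im|) ^ (2 * B) := by
    have a1 := abs_nonneg s₁.im
    have a2 := abs_nonneg s₂.im
    have k1 : (1 + |s₁.im|) ^ B ≤ (1 + |s₁.im| + |s₂.im|) ^ B :=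
      Real.rpow_le_rpow (by linarith) (by linarith) hB
    have k2 : (1 + |s₂.im|) ^ B ≤ (1 + |s₁.im| + |s₂.im|) ^ B :=
      Real.rpow_le_rpow (by linarith) (by linarith) hB
    have k3 : (1 + |s₁.im| + |s₂.im|) ^ (2 * B) =
        (1 + |s₁.im| + |s₂.im|) ^ B * (1 + |s₁.im| + |s₂.im|) ^ B := by
      rw [← Real.rpow_add (by linarith)]
      congr 1
      ring
    rw [k3]
    exact mul_le_mul k1 k2 (Real.rpow_nonneg (by linarith) _) (Real.rpow_nonneg (by linarith) _)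
  have hs : ((1 + |s₁.im|) ^ B * (1 + |s₂.im|) ^ B) ^ n ≤
      (1 + |s₁.im| + |s₂.im|) ^ (2 * B * n) := by
    have a1 := abs_nonneg s₁.im
    have a2 := abs_nonneg s₂.im
    rw [Real.rpow_mul (by linarith), Real.rpow_natCast]
    exact pow_le_pow_left₀ (by positivity) hs0 n
  have hxp : 0 ≤ x ^ (-a) := (Real.rpow_pos_of_pos hx _).le
  have hsq : 0 ≤ Real.sqrt (Real.pi / 1) := Real.sqrt_nonneg _
  calc 1 / (2 * Real.pi) * ‖∫ t : ℝ, HH n s₁ s₂ x (a + t * I)‖ ≤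
      1 / (2 * Real.pi) * ((C ^ 2 * ((1 + |s₁.im|) ^ B * (1 + |s₂.im|) ^ B)) ^ n *
      (Real.exp (2 * a ^ 2) / a) * x ^ (-a) *
      (Real.exp (4 * n ^ 2) * Real.sqrt (Real.pi / 1))) :=
        mul_le_mul_of_nonneg_left hnorm (by positivity)
    _ = 1 / (2 * Real.pi) * ((C ^ 2) ^ n * (Real.exp (2 * a ^ 2) / a) *
      (Real.exp (4 * n ^ 2) * Real.sqrt (Real.pi / 1))) *
      ((1 + |s₁.im|) ^ B * (1 + |s₂.im|) ^ B) ^ n * x ^ (-a) := by
        rw [mul_pow]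
        ring
    _ ≤ _ := by
      apply mul_le_mul_of_nonneg_right _ hxp
      apply mul_le_mul_of_nonneg_left hs
      positivity

end Pool.Agent.H36.CRG
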